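import Pool.Agent.Helper727.Cub.Glue

namespace Pool.Agent.Results.MP_5e604b_co.Classification

open Pool.Agent.Helper727.Cub
open Pool.Agent.Helper727.Cub.Name

universe u

/-- The cubic bipartite graphs with exactly five and with exactly six distinct eigenvalues. -/
theorem result :
    -- all graphs, connected or not
    (∀ (V : Type u) [Fintype V] [DecidableEq V] (G : SimpleGraph V) [DecidableRel G.Adj],
      G.IsRegularOfDegree 3 → G.IsBipartite →
      (numEig G = 5 ↔
        (MadeOf G [k33, pappus] ∧ Occurs G pappus) ∨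
        (MadeOf G [k33, tutteCoxeter] ∧ Occurs G tutteCoxeter) ∨
        (MadeOf G [k33, cube] ∧ Occurs G k33 ∧ Occurs G cube) ∨
        (MadeOf G [k33, heawood] ∧ Occurs G k33 ∧ Occurs G heawood)) ∧
      (numEig G = 6 ↔
        (MadeOf G [cube, heawood] ∧ Occurs G cube ∧ Occurs G heawood) ∨
        (MadeOf G [cube, franklin, moebiusKantor] ∧
          (Occurs G franklin ∨ Occurs G moebiusKantor)) ∨
        (MadeOf G [cube, lcf16, dyck] ∧ (Occurs G lcf16 ∨ Occurs G dyck)) ∨
        (MadeOf G [cube, desargues, desarguesMate] ∧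
          (Occurs G desargues ∨ Occurs G desarguesMate)) ∨
        (MadeOf G [moebiusLadder] ∧ Occurs G moebiusLadder) ∨
        (MadeOf G [f26a] ∧ Occurs G f26a))) ∧
    -- the connected graphs
    (∀ (V : Type u) [Fintype V] [DecidableEq V] (G : SimpleGraph V) [DecidableRel G.Adj],
      G.IsRegularOfDegree 3 → G.IsBipartite → G.Connected →
      (numEig G = 5 ↔ ∃ x ∈ [pappus, tutteCoxeter], Nonempty (G ≃g graph x)) ∧
      (numEig G = 6 ↔ ∃ x ∈ [moebiusLadder, franklin, moebiusKantor, lcf16, desargues,
        desarguesMate, f26a, dyck], Nonempty (G ≃g graph x))) ∧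
    -- the thirteen graphs are connected, cubic, bipartite and pairwise non-isomorphic
    (∀ x : Name, (graph x).Connected ∧ (∀ v, ((graph x).neighborSet v).ncard = 3) ∧
      (graph x).IsBipartite) ∧
    (∀ x y : Name, Nonempty (graph x ≃g graph y) → x = y) := by
  refine ⟨?_, ?_, ?_, ?_⟩
  · intro V _ _ G _ h3 hb
    exact main G h3 hb
  · intro V _ _ G _ h3 hb hc
    exact main_connected G h3 hb hc
  · intro x
    exact ⟨graph_connected x, graph_cubic x, graph_bipartite x⟩
  · intro x y h
    exact iso_unique h

end Pool.Agent.Results.MP_5e604b_co.Classification
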